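import Pool.Agent.W366.LR.InfC

/-!
# The infinite rank case: transfinite extension
-/

set_option autoImplicit false

namespace Pool.Agent.W366.LR

open Pool.Agent.W393.LR Subgroup

variable {G : Type} [Group G] {N : Subgroup G} {E : Type} [Group E]

/-- a partial extension of `θ` to `K_J` -/
def Gd (X : Data G N) (H : Subgroup G) (π : G →* E) (θ : G → E) (p : Set X.B × (G → E)) : Prop :=
  H ≤ KJ X.U p.1 ∧ GoodOn (KJ X.U p.1) π p.2 ∧ ∀ h ∈ H, p.2 h = θ h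

/-- extension relation -/
def Rl (X : Data G N) (p q : Set X.B × (G → E)) : Prop :=
  p.1 ⊆ q.1 ∧ ∀ g ∈ KJ X.U p.1, q.2 g = p.2 g

lemma Rl_refl (X : Data G N) (p : Set X.B × (G → E)) : Rl X p p := ⟨subset_rfl, fun _ _ => rfl⟩

lemma Rl_trans (X : Data G N) {p q r : Set X.B × (G → E)} (h1 : Rl X p q) (h2 : Rl X q r) :
    Rl X p r :=
  ⟨h1.1.trans h2.1, fun g hg => (h2.2 g (KJ_mono X.U h1.1 hg)).trans (h1.2 g hg)⟩

/-- union of a chain -/
lemma union_chain (X : Data G N) (H : Subgroup G) (π : G →* E) (θ : G → E)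
    (c : Set (Set X.B × (G → E))) (hc : ∀ p ∈ c, ∀ q ∈ c, Rl X p q ∨ Rl X q p)
    (hne : c.Nonempty) (hg : ∀ p ∈ c, Gd X H π θ p) :
    ∃ Th : G → E, Gd X H π θ (⋃ p ∈ c, p.1, Th) ∧ ∀ p ∈ c, Rl X p (⋃ p ∈ c, p.1, Th) := by
  classical
  set J : Set X.B := ⋃ p ∈ c, p.1 with hJ
  -- finite subsets of `J` lie in a member
  have hdir : ∀ T : Set X.B, T.Finite → T ⊆ J → ∃ p ∈ c, T ⊆ p.1 := by
    intro T hT
    induction T, hT using Set.Finite.induction_on with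
    | empty =>
      intro _
      obtain ⟨p, hp⟩ := hne
      exact ⟨p, hp, Set.empty_subset _⟩
    | insert _ _ ih =>
      rename_i a T' _ _
      intro hTJ
      obtain ⟨p, hp, hp1⟩ := ih ((Set.subset_insert _ _).trans hTJ)
      have ha : a ∈ J := hTJ (Set.mem_insert _ _)
      simp only [hJ, Set.mem_iUnion] at ha
      obtain ⟨q, hq, hq1⟩ := ha
      rcases hc p hp q hq with h | h
      · exact ⟨q, hq, Set.insert_subset hq1 (hp1.trans h.1)⟩
      · exact ⟨p, hp, Set.insert_subset (h.1 hq1) hp1⟩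
  set Th : G → E := fun g => if h : ∃ p ∈ c, g ∈ KJ X.U p.1 then h.choose.2 g else 1 with hTh
  have hTh1 : ∀ p ∈ c, ∀ g ∈ KJ X.U p.1, Th g = p.2 g := by
    intro p hp g hgp
    have h : ∃ p ∈ c, g ∈ KJ X.U p.1 := ⟨p, hp, hgp⟩
    have h1 : Th g = h.choose.2 g := by
      simp only [hTh]
      rw [dif_pos h]
    rw [h1]
    rcases hc p hp _ h.choose_spec.1 with h2 | h2
    · exact h2.2 g hgp
    · exact (h2.2 g h.choose_spec.2).symm
  have hsub : ∀ p ∈ c, p.1 ⊆ J := by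
    intro p hp
    exact Set.subset_biUnion_of_mem (u := fun p : Set X.B × (G → E) => p.1) hp
  refine ⟨Th, ⟨?_, ⟨?_, ?_⟩, ?_⟩, fun p hp => ⟨hsub p hp, hTh1 p hp⟩⟩
  · obtain ⟨p, hp⟩ := hne
    exact (hg p hp).1.trans (KJ_mono X.U (hsub p hp))
  · intro x hx y hy
    obtain ⟨p, hp, hpT⟩ := hdir (ty X.U x ∪ ty X.U y) ((ty_fin X.fin x).union (ty_fin X.fin y))
      (Set.union_subset ((mem_KJ _).mp hx) ((mem_KJ _).mp hy))
    have hx' : x ∈ KJ X.U p.1 := (mem_KJ _).mpr (Set.subset_union_left.trans hpT)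
    have hy' : y ∈ KJ X.U p.1 := (mem_KJ _).mpr (Set.subset_union_right.trans hpT)
    change Th (x * y) = Th x * Th y
    rw [hTh1 p hp x hx', hTh1 p hp y hy', hTh1 p hp _ (mul_mem hx' hy')]
    exact (hg p hp).2.1.1 x hx' y hy'
  · intro C hC hCK
    obtain ⟨p, hp, hpT⟩ := hdir (⋃ x : C, ty X.U x) (Set.finite_iUnion fun x => ty_fin X.fin _)
      (Set.iUnion_subset fun x => (mem_KJ _).mp (hCK x.2))
    have hCp : C ≤ KJ X.U p.1 := by
      intro x hx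
      exact (mem_KJ _).mpr ((Set.subset_iUnion (fun x : C => ty X.U (x : G)) ⟨x, hx⟩).trans hpT)
    obtain ⟨ε, hε⟩ := (hg p hp).2.1.2 C hC hCp
    refine ⟨ε, fun x hx => ?_⟩
    change _ = ε * Th x * ε⁻¹
    rw [hTh1 p hp x (hCp hx)]
    exact hε x hx
  · intro h hh
    obtain ⟨p, hp⟩ := hne
    change Th h = θ h
    rw [hTh1 p hp h ((hg p hp).1 hh)]
    exact (hg p hp).2.2 h hh

/-- extension by finitely many letters over a closed set -/
lemma ext_fin (hR : S_R) (hS : S_RES) (hN : N.Normal) (hNi : N.FiniteIndex) (hNf : IsFreeGroup N)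
    (X : Data G N) (H : Subgroup G) (hH : Infinite H) (hNH : N ⊔ H = ⊤) (π : G →* E) (θ : G → E)
    (J : Set X.B) (hJ : Closed X J) (T T' : Set X.B) (hTT : T ⊆ T') (hT' : T'.Finite)
    (Th : G → E) (hTh : Gd X H π θ (J ∪ T, Th)) :
    ∃ Th' : G → E, Gd X H π θ (J ∪ T', Th') ∧ Rl X (J ∪ T, Th) (J ∪ T', Th') := by
  obtain ⟨S, hSf, hSN, hgen⟩ := step1 hR hS X J hJ T' hT'
  have hsub : J ∪ T ⊆ J ∪ T' := Set.union_subset_union_right _ hTT
  obtain ⟨Th', h1, h2⟩ := ext_step hR hS N H (KJ X.U (J ∪ T)) (KJ X.U (J ∪ T')) hN hNi hNf hH hNH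
    hTh.1 (KJ_mono X.U hsub) (hasSep_KJ X.fin _) S hSf hSN (by
      refine hgen.trans (closure_mono (Set.union_subset_union_right _ ?_))
      intro x hx
      exact mem_inf.mpr ⟨(mem_inf.mp hx).1, KJ_mono X.U Set.subset_union_left (mem_inf.mp hx).2⟩)
    π Th hTh.2.1
  refine ⟨Th', ⟨hTh.1.trans (KJ_mono X.U hsub), h1, ?_⟩, hsub, h2⟩
  intro h hh
  change Th' h = θ h
  rw [h2 h (hTh.1 hh)]
  exact hTh.2.2 h hh

/-- the letters needed for one more level -/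
def nxt (X : Data G N) (T : Set X.B) : Set X.B :=
  T ∪ ⋃ b : T, ty X.U ((X.φ.symm (FreeGroup.of (b : X.B)) : N) : G)

/-- extension to a closed set -/
lemma ext_closed (hR : S_R) (hS : S_RES) (hN : N.Normal) (hNi : N.FiniteIndex)
    (hNf : IsFreeGroup N)
    (X : Data G N) (H : Subgroup G) (hH : Infinite H) (hNH : N ⊔ H = ⊤) (π : G →* E) (θ : G → E)
    (J : Set X.B) (hJ : Closed X J) (J1 : Set X.B) (hJ1 : J1.Finite)
    (Th : G → E) (hTh : Gd X H π θ (J ∪ J1, Th)) :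
    ∃ q : Set X.B × (G → E), Closed X q.1 ∧ Gd X H π θ q ∧ Rl X (J ∪ J1, Th) q := by
  classical
  set T : ℕ → Set X.B := fun k => (nxt X)^[k] J1 with hT
  have hT0 : T 0 = J1 := rfl
  have hTs : ∀ k, T (k + 1) = nxt X (T k) := fun k => by
    simp only [hT, Function.iterate_succ_apply']
  have hTf : ∀ k, (T k).Finite := by
    intro k
    induction k with
    | zero => exact hJ1
    | succ k ih =>
      rw [hTs, nxt]
      haveI := ih.to_subtype
      exact ih.union (Set.finite_iUnion fun b => ty_fin X.fin _)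
  have hTm : ∀ k, T k ⊆ T (k + 1) := fun k => by
    rw [hTs]
    exact Set.subset_union_left
  have hstep : ∀ (k : ℕ) (F : G → E), Gd X H π θ (J ∪ T k, F) →
      ∃ F' : G → E, Gd X H π θ (J ∪ T (k + 1), F') ∧ Rl X (J ∪ T k, F) (J ∪ T (k + 1), F') :=
    fun k F hF => ext_fin hR hS hN hNi hNf X H hH hNH π θ J hJ _ _ (hTm k) (hTf _) F hF
  choose f hf1 hf2 using hstep
  let seq : ∀ k : ℕ, {F : G → E // Gd X H π θ (J ∪ T k, F)} := fun k =>
    Nat.rec ⟨Th, hTh⟩ (fun k s => ⟨f k s.1 s.2, hf1 k s.1 s.2⟩) k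
  have hseq0 : (seq 0).1 = Th := rfl
  have hseqs : ∀ k, Rl X (J ∪ T k, (seq k).1) (J ∪ T (k + 1), (seq (k + 1)).1) := fun k =>
    hf2 k (seq k).1 (seq k).2
  have hmono : ∀ k l, k ≤ l → Rl X (J ∪ T k, (seq k).1) (J ∪ T l, (seq l).1) := by
    intro k l hkl
    induction l, hkl using Nat.le_induction with
    | base => exact Rl_refl _ _
    | succ l _ ih => exact Rl_trans X ih (hseqs l)
  set c : Set (Set X.B × (G → E)) := Set.range fun k => (J ∪ T k, (seq k).1) with hc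
  obtain ⟨F, hF1, hF2⟩ := union_chain X H π θ c (by
    rintro _ ⟨k, rfl⟩ _ ⟨l, rfl⟩
    rcases le_total k l with h | h
    · exact Or.inl (hmono k l h)
    · exact Or.inr (hmono l k h)) ⟨_, ⟨0, rfl⟩⟩ (by
    rintro _ ⟨k, rfl⟩
    exact (seq k).2)
  have hsub : ∀ k, J ∪ T k ⊆ ⋃ p ∈ c, p.1 := fun k => (hF2 _ ⟨k, rfl⟩).1
  refine ⟨(⋃ p ∈ c, p.1, F), ?_, hF1, hF2 _ ⟨0, rfl⟩⟩
  intro b hb
  simp only [Set.mem_iUnion] at hb
  obtain ⟨p, ⟨k, rfl⟩, hb⟩ := hb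
  rcases hb with hb | hb
  · exact KJ_mono X.U (Set.subset_union_left.trans (hsub 0)) (hJ b hb)
  · rw [mem_KJ]
    refine Set.Subset.trans ?_ (Set.subset_union_right.trans (hsub (k + 1)))
    rw [hTs]
    exact Set.Subset.trans (Set.subset_iUnion
      (fun b : T k => ty X.U ((X.φ.symm (FreeGroup.of (b : X.B)) : N) : G)) ⟨b, hb⟩)
      Set.subset_union_right

theorem inf (hR : S_R) (hD : S_FGD) (hS : S_RES) : S_INF := by
  classical
  intro G _ N H hN hNi hNf hHfg hH hNH hsep E _ π θ hθ1 hθ2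
  obtain ⟨X⟩ := exists_data hD N hN hNi hNf
  have hcl0 : Closed X ∅ := fun b hb => absurd hb (Set.notMem_empty b)
  -- the first step
  obtain ⟨S, hS1⟩ := hHfg
  set S0 : Set X.B := ⋃ x : S, ty X.U (x : G) with hS0
  have hS0f : S0.Finite := Set.finite_iUnion fun x => ty_fin X.fin _
  have hHS0 : H ≤ KJ X.U (∅ ∪ S0) := by
    rw [← hS1, closure_le]
    intro x hx
    change x ∈ KJ X.U (∅ ∪ S0)
    rw [mem_KJ, Set.empty_union]
    exact Set.subset_iUnion (fun x : S => ty X.U (x : G)) ⟨x, hx⟩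
  obtain ⟨S', hSf, hSN, hgen⟩ := step1 hR hS X ∅ hcl0 S0 hS0f
  have hbot : ((N ⊓ KJ X.U ∅ : Subgroup G) : Set G) ⊆ ((N ⊓ H : Subgroup G) : Set G) := by
    intro x hx
    obtain ⟨hxN, hxK⟩ := mem_inf.mp hx
    have h1 := X.cl ∅ ⟨x, hxN⟩ hxK
    rw [Set.image_empty, Subgroup.closure_empty, mem_bot] at h1
    have h2 : (⟨x, hxN⟩ : N) = 1 := by
      apply X.φ.injective
      rw [h1, map_one]
    have h3 : x = 1 := congrArg (fun t : N => (t : G)) h2
    rw [h3]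
    exact one_mem _
  obtain ⟨Th0, h1, h2⟩ := ext_step hR hS N H H (KJ X.U (∅ ∪ S0)) hN hNi hNf hH hNH le_rfl hHS0 hsep
    S' hSf hSN (hgen.trans (closure_mono (Set.union_subset_union_right _ hbot))) π θ ⟨hθ1, hθ2⟩
  obtain ⟨q0, hq0c, hq0g, -⟩ := ext_closed hR hS hN hNi hNf X H hH hNH π θ ∅ hcl0 S0 hS0f Th0
    ⟨hHS0, h1, h2⟩
  let P : Type := {p : Set X.B × (G → E) // Closed X p.1 ∧ Gd X H π θ p}
  haveI : Nonempty P := ⟨⟨q0, hq0c, hq0g⟩⟩
  obtain ⟨m, hm⟩ := exists_maximal_of_nonempty_chains_bounded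
    (r := fun p q : P => Rl X p.1 q.1) (by
      intro c hc hne
      obtain ⟨F, hF1, hF2⟩ := union_chain X H π θ (Subtype.val '' c) (by
        rintro _ ⟨p, hp, rfl⟩ _ ⟨q, hq, rfl⟩
        by_cases hpq : p = q
        · rw [hpq]
          exact Or.inl (Rl_refl _ _)
        · exact hc hp hq hpq) (hne.image _) (by
        rintro _ ⟨p, hp, rfl⟩
        exact p.2.2)
      refine ⟨⟨(⋃ p ∈ Subtype.val '' c, p.1, F), ?_, hF1⟩, fun p hp => hF2 _ ⟨p, hp, rfl⟩⟩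
      intro b hb
      simp only [Set.mem_iUnion] at hb
      obtain ⟨_, ⟨p, hp, rfl⟩, hb⟩ := hb
      exact KJ_mono X.U (hF2 _ ⟨p, hp, rfl⟩).1 (p.2.1 b hb)) (fun h1 h2 => Rl_trans X h1 h2)
  have hall : m.1.1 = Set.univ := by
    rw [Set.eq_univ_iff_forall]
    intro b
    obtain ⟨F, hF1, hF2⟩ := ext_fin hR hS hN hNi hNf X H hH hNH π θ m.1.1 m.2.1 ∅ {b}
      (Set.empty_subset _) (Set.finite_singleton b) m.1.2 (by
        rw [Set.union_empty]
        exact m.2.2)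
    obtain ⟨q, hq1, hq2, hq3⟩ := ext_closed hR hS hN hNi hNf X H hH hNH π θ m.1.1 m.2.1 {b}
      (Set.finite_singleton b) F hF1
    have h3 : Rl X m.1 q := by
      refine Rl_trans X ?_ hq3
      rw [Set.union_empty] at hF2
      exact hF2
    have h4 := hm ⟨q, hq1, hq2⟩ h3
    exact h4.1 (hq3.1 (Or.inr rfl))
  obtain ⟨hmH, ⟨hm1, hm2⟩, hm3⟩ := m.2.2
  rw [hall, KJ_univ] at hm1 hm2
  refine ⟨⟨⟨m.1.2, homOn_one hm1⟩, fun x y => hm1 x (mem_top _) y (mem_top _)⟩, hm3, ?_⟩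
  intro C hC
  exact hm2 C hC le_top

end Pool.Agent.W366.LR
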