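import Pool.Agent.W393.LR.Stmts

/-!
# The infinite rank case: the extension step
-/

set_option autoImplicit false

namespace Pool.Agent.W366.LR

open Pool.Agent.W393.LR Subgroup

lemma free_of_inj {A B : Type} [Group A] [Group B] (f : A →* B) (hf : Function.Injective f)
    (hB : IsFreeGroup B) : IsFreeGroup A :=
  haveI : IsFreeGroup f.range := inferInstance
  IsFreeGroup.ofMulEquiv (MonoidHom.ofInjective hf).symm

/-- a homomorphism on `K` which is conjugate to `π` on finite subgroups -/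
def GoodOn {G E : Type} [Group G] [Group E] (K : Subgroup G) (π : G →* E) (Th : G → E) : Prop :=
  HomOn K Th ∧ ∀ C : Subgroup G, Finite C → C ≤ K → ConjOn C Th π

lemma homOn_one {G E : Type} [Group G] [Group E] {K : Subgroup G} {Th : G → E}
    (h : HomOn K Th) : Th 1 = 1 := by
  have := h 1 (one_mem _) 1 (one_mem _)
  rw [mul_one] at this
  exact (mul_eq_left.mp this.symm)

lemma ext_step (hR : S_R) (hS : S_RES) {G : Type} [Group G] (N H Z K : Subgroup G)
    (hN : N.Normal) (hNi : N.FiniteIndex) (hNf : IsFreeGroup N) (hH : Infinite H)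
    (hNH : N ⊔ H = ⊤) (hHZ : H ≤ Z) (hZK : Z ≤ K) (hsep : HasSep G Z) (S : Set G)
    (hSf : S.Finite) (hSN : S ⊆ ((N ⊓ K : Subgroup G) : Set G))
    (hgen : N ⊓ K ≤ closure (S ∪ ((N ⊓ Z : Subgroup G) : Set G)))
    {E : Type} [Group E] (π : G →* E) (Th : G → E) (hTh : GoodOn Z π Th) :
    ∃ Th' : G → E, GoodOn K π Th' ∧ ∀ z ∈ Z, Th' z = Th z := by
  classical
  have h1 : IsFreeGroup (N.subgroupOf K) := by
    refine free_of_inj (A := N.subgroupOf K) (B := N)
      ⟨⟨fun x => ⟨((x : K) : G), x.2⟩, rfl⟩, fun x y => rfl⟩ ?_ hNf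
    intro x y hxy
    apply Subtype.ext
    apply Subtype.ext
    exact congrArg (fun t : N => (t : G)) hxy
  have h2 : Infinite (Z.subgroupOf K) := by
    refine Infinite.of_injective (fun h : H => (⟨⟨h, hZK (hHZ h.2)⟩, ?_⟩ : Z.subgroupOf K)) ?_
    · exact hHZ h.2
    · intro x y hxy
      apply Subtype.ext
      exact congrArg (fun t : Z.subgroupOf K => ((t : K) : G)) hxy
  have h3 : N.subgroupOf K ⊔ Z.subgroupOf K = ⊤ := by
    rw [eq_top_iff]
    intro k _
    have hk : (k : G) ∈ N ⊔ H := by rw [hNH]; exact mem_top _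
    obtain ⟨n, hn, h, hh, hnh⟩ := Subgroup.mem_sup_of_normal_left.mp hk
    have hnK : n ∈ K := by
      have : n = (k : G) * h⁻¹ := by rw [← hnh]; simp
      rw [this]
      exact K.mul_mem k.2 (K.inv_mem (hZK (hHZ hh)))
    have hke : k = (⟨n, hnK⟩ : K) * ⟨h, hZK (hHZ hh)⟩ := Subtype.ext hnh.symm
    rw [hke]
    exact mul_mem_sup (by exact hn) (by exact hHZ hh)
  have h4 : HasSep K (Z.subgroupOf K) := hS G K K.subtype Z (K.subtype_injective) hsep
  have h5 : ∃ S' : Set K, S'.Finite ∧ S' ⊆ (N.subgroupOf K : Set K) ∧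
      N.subgroupOf K ≤ closure (S' ∪ ((N.subgroupOf K ⊓ Z.subgroupOf K : Subgroup K) : Set K)) := by
    refine ⟨K.subtype ⁻¹' S, hSf.preimage (K.subtype_injective.injOn), ?_, ?_⟩
    · intro x hx
      exact (mem_inf.mp (hSN hx)).1
    · intro x hx
      have hx' : (x : G) ∈ N ⊓ K := mem_inf.mpr ⟨hx, x.2⟩
      have h6 := hgen hx'
      have h7 : S ∪ ((N ⊓ Z : Subgroup G) : Set G) = K.subtype ''
          (K.subtype ⁻¹' S ∪ ((N.subgroupOf K ⊓ Z.subgroupOf K : Subgroup K) : Set K)) := by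
        ext y
        constructor
        · rintro (hy | hy)
          · exact ⟨⟨y, (mem_inf.mp (hSN hy)).2⟩, Or.inl hy, rfl⟩
          · have hy1 := mem_inf.mp hy
            exact ⟨⟨y, hZK hy1.2⟩, Or.inr (mem_inf.mpr ⟨hy1.1, hy1.2⟩), rfl⟩
        · rintro ⟨z, hz | hz, rfl⟩
          · exact Or.inl hz
          · have hz1 := mem_inf.mp hz
            exact Or.inr (mem_inf.mpr ⟨hz1.1, hz1.2⟩)
      rw [h7, ← MonoidHom.map_closure] at h6
      obtain ⟨z, hz, hzx⟩ := mem_map.mp h6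
      have : z = x := Subtype.ext hzx
      rwa [← this]
  obtain ⟨Θ, hΘ1, hΘ2⟩ := hR K (N.subgroupOf K) (Z.subgroupOf K) inferInstance inferInstance h1 h2 h3
    h4 h5 E (π.comp K.subtype) (fun k => Th k) (fun x hx y hy => hTh.1 x hx y hy) (by
      intro C hC hCZ
      obtain ⟨ε, hε⟩ := hTh.2 (C.map K.subtype) (by
        exact Finite.Set.finite_image (C : Set K) K.subtype) (by
        rintro _ ⟨c, hc, rfl⟩
        exact hCZ hc)
      exact ⟨ε, fun c hc => hε _ (mem_map_of_mem _ hc)⟩)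
  refine ⟨fun g => if h : g ∈ K then Θ ⟨g, h⟩ else 1, ⟨?_, ?_⟩, ?_⟩
  · intro x hx y hy
    simp only [hx, hy, K.mul_mem hx hy, dif_pos]
    rw [← map_mul]
    rfl
  · intro C hC hCK
    obtain ⟨ε, hε⟩ := hΘ2 (C.subgroupOf K) (by
      exact Finite.of_injective (fun x : C.subgroupOf K => (⟨(x : K), x.2⟩ : C)) (by
        intro x y hxy
        apply Subtype.ext
        apply Subtype.ext
        exact congrArg (fun t : C => (t : G)) hxy))
    refine ⟨ε, fun c hc => ?_⟩
    simp only [hCK hc, dif_pos]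
    exact hε ⟨c, hCK hc⟩ hc
  · intro z hz
    simp only [hZK hz, dif_pos]
    exact hΘ1 ⟨z, hZK hz⟩ hz

end Pool.Agent.W366.LR
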