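import Pool.Agent.W366.LR.InfA

/-!
# The infinite rank case: the subgroups `K_J`
-/

set_option autoImplicit false

namespace Pool.Agent.W366.LR

open Pool.Agent.W393.LR Subgroup

section

variable {G : Type} [Group G] {B : Type} (U : B → Set G)

/-- common right stabiliser of the `U b` with `b ∉ J` -/
def KJ (J : Set B) : Subgroup G where
  carrier := {g | ∀ b, b ∉ J → ∀ x, (x ∈ U b ↔ x * g ∈ U b)}
  one_mem' := by
    intro b _ x
    rw [mul_one]
  mul_mem' := by
    intro a c ha hc b hb x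
    rw [ha b hb x, hc b hb (x * a), mul_assoc]
  inv_mem' := by
    intro a ha b hb x
    have := ha b hb (x * a⁻¹)
    rw [inv_mul_cancel_right] at this
    exact this.symm

/-- the letters which are moved by `g` -/
def ty (g : G) : Set B := {b | ∃ x, ¬ (x ∈ U b ↔ x * g ∈ U b)}

lemma mem_KJ {J : Set B} {g : G} : g ∈ KJ U J ↔ ty U g ⊆ J := by
  constructor
  · rintro h b ⟨x, hx⟩
    by_contra hb
    exact hx (h b hb x)
  · intro h b hb x
    by_contra hx
    exact hb (h ⟨x, hx⟩)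

lemma KJ_mono {J J' : Set B} (h : J ⊆ J') : KJ U J ≤ KJ U J' := by
  intro g hg
  rw [mem_KJ] at hg ⊢
  exact hg.trans h

lemma KJ_univ : KJ U Set.univ = ⊤ := by
  rw [eq_top_iff]
  intro g _
  rw [mem_KJ]
  exact Set.subset_univ _

variable {U}

lemma ty_fin (hfin : ∀ g : G, {p : G × B | ¬ (p.1 ∈ U p.2 ↔ p.1 * g ∈ U p.2)}.Finite) (g : G) :
    (ty U g).Finite := by
  refine ((hfin g).image Prod.snd).subset ?_
  rintro b ⟨x, hx⟩
  exact ⟨(x, b), hx, rfl⟩

lemma hasSep_KJ (hfin : ∀ g : G, {p : G × B | ¬ (p.1 ∈ U p.2 ↔ p.1 * g ∈ U p.2)}.Finite)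
    (J : Set B) : HasSep G (KJ U J) := by
  refine ⟨{b // b ∉ J}, fun b => U b, ?_, ?_⟩
  · intro g
    refine ((hfin g).preimage (f := fun p : G × {b // b ∉ J} => (p.1, (p.2 : B))) ?_).subset ?_
    · intro p _ q _ hpq
      simp only [Prod.mk.injEq] at hpq
      exact Prod.ext hpq.1 (Subtype.ext hpq.2)
    · intro p hp
      exact hp
  · intro g
    constructor
    · intro h b x
      exact h b b.2 x
    · intro h b hb x
      exact h ⟨b, hb⟩ x

end

/-- The separating sets of a virtually free group. -/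
structure Data (G : Type) [Group G] (N : Subgroup G) where
  B : Type
  φ : N ≃* FreeGroup B
  U : B → Set G
  fin : ∀ g : G, {p : G × B | ¬ (p.1 ∈ U p.2 ↔ p.1 * g ∈ U p.2)}.Finite
  cl : ∀ (J : Set B) (n : N), (n : G) ∈ KJ U J → φ n ∈ closure (FreeGroup.of '' J)

section

variable {G : Type} [Group G] (N : Subgroup G) [hN : N.Normal]

open Classical in
/-- coset representatives -/
noncomputable def sec (q : G ⧸ N) : G := if q = 1 then 1 else q.out

lemma sec_one : sec N 1 = 1 := by simp [sec]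

lemma mk_sec (q : G ⧸ N) : ((sec N q : G) : G ⧸ N) = q := by
  unfold sec
  split_ifs with h
  · rw [h]
    rfl
  · exact QuotientGroup.out_eq' q

/-- the `N`-part -/
noncomputable def nu (x : G) : N :=
  ⟨x * (sec N (x : G ⧸ N))⁻¹, by
    rw [← QuotientGroup.eq_one_iff, QuotientGroup.mk_mul, QuotientGroup.mk_inv, mk_sec,
      mul_inv_cancel]⟩

/-- the cocycle -/
noncomputable def cc (q : G ⧸ N) (g : G) : N :=
  ⟨sec N q * g * (sec N (q * (g : G ⧸ N)))⁻¹, by
    rw [← QuotientGroup.eq_one_iff, QuotientGroup.mk_mul, QuotientGroup.mk_mul,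
      QuotientGroup.mk_inv, mk_sec, mk_sec, mul_inv_cancel]⟩

lemma nu_mul (x g : G) : nu N (x * g) = nu N x * cc N (x : G ⧸ N) g := by
  apply Subtype.ext
  simp only [nu, cc, Subgroup.coe_mul, QuotientGroup.mk_mul]
  group

lemma nu_coe (n : N) : nu N (n : G) = n := by
  apply Subtype.ext
  have : ((n : G) : G ⧸ N) = 1 := (QuotientGroup.eq_one_iff _).mpr n.2
  simp only [nu, this, sec_one]
  simp

lemma cc_one (n : N) : cc N 1 (n : G) = n := by
  apply Subtype.ext
  have : ((n : G) : G ⧸ N) = 1 := (QuotientGroup.eq_one_iff _).mpr n.2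
  simp only [cc, this, mul_one, sec_one]
  simp

end

lemma exists_data (hD : S_FGD) {G : Type} [Group G] (N : Subgroup G) (hN : N.Normal)
    (hNi : N.FiniteIndex) (hNf : IsFreeGroup N) : Nonempty (Data G N) := by
  obtain ⟨D, F1, F2, -, F4⟩ := hD (IsFreeGroup.Generators N)
  set φ := IsFreeGroup.toFreeGroup N with hφ
  set U : IsFreeGroup.Generators N → Set G := fun b => {x | (1, b) ∈ D (φ (nu N x))} with hU
  have key : ∀ (b : IsFreeGroup.Generators N) (x g : G), ¬ (x ∈ U b ↔ x * g ∈ U b) ↔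
      ((φ (nu N x))⁻¹, b) ∈ D (φ (cc N (x : G ⧸ N) g)) := by
    intro b x g
    have h1 := F2 (φ (nu N x)) (φ (cc N (x : G ⧸ N) g)) (1, b)
    rw [← map_mul, ← nu_mul] at h1
    simp only [mul_one] at h1
    change ¬ ((1, b) ∈ D (φ (nu N x)) ↔ (1, b) ∈ D (φ (nu N (x * g)))) ↔ _
    rw [h1]
    tauto
  refine ⟨⟨IsFreeGroup.Generators N, φ, U, ?_, ?_⟩⟩
  · intro g
    have hfin : (⋃ q : G ⧸ N, ({q} : Set (G ⧸ N)) ×ˢ D (φ (cc N q g))).Finite :=
      Set.finite_iUnion fun q => (Set.finite_singleton q).prod (F1 _)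
    refine (hfin.preimage (f := fun p : G × IsFreeGroup.Generators N =>
      ((p.1 : G ⧸ N), ((φ (nu N p.1))⁻¹, p.2))) ?_).subset ?_
    · rintro ⟨x, b⟩ _ ⟨y, b'⟩ _ hxy
      simp only [Prod.mk.injEq, inv_inj, EmbeddingLike.apply_eq_iff_eq] at hxy
      obtain ⟨h1, h2, h3⟩ := hxy
      have h4 := congrArg (fun t : N => (t : G)) h2
      simp only [nu, h1] at h4
      exact Prod.ext (mul_right_cancel h4) h3
    · rintro ⟨x, b⟩ hx
      simp only [Set.mem_setOf_eq] at hx
      rw [key] at hx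
      simp only [Set.mem_preimage, Set.mem_iUnion, Set.mem_prod, Set.mem_singleton_iff]
      exact ⟨_, rfl, hx⟩
  · intro J n hn
    refine (F4 (closure (FreeGroup.of '' J) : Subgroup _) (φ n) ?_).mp (one_mem _)
    intro e he
    have hJ : e.2 ∈ J := by
      by_contra hb
      have h1 := hn e.2 hb (φ.symm e.1⁻¹ : N)
      have h2 := (key e.2 (φ.symm e.1⁻¹ : N) n).mpr (by
        have h3 : (((φ.symm e.1⁻¹ : N) : G) : G ⧸ N) = 1 :=
          (QuotientGroup.eq_one_iff _).mpr (φ.symm e.1⁻¹ : N).2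
        rw [nu_coe, h3, cc_one, MulEquiv.apply_symm_apply, inv_inv]
        exact he)
      exact h2 h1
    have h4 : FreeGroup.of e.2 ∈ closure (FreeGroup.of '' J) :=
      subset_closure ⟨e.2, hJ, rfl⟩
    exact ((Subgroup.mul_mem_cancel_right _ h4).symm)

end Pool.Agent.W366.LR
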