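import Pool.Agent.W366.LR.InfB

/-!
# The infinite rank case: relative finite generation
-/

set_option autoImplicit false

namespace Pool.Agent.W366.LR

open Pool.Agent.W393.LR Subgroup

variable {G : Type} [Group G] {N : Subgroup G}

/-- `J` is closed: the letters of `J` lie in `K_J` -/
def Closed (X : Data G N) (J : Set X.B) : Prop :=
  ∀ b ∈ J, ((X.φ.symm (FreeGroup.of b) : N) : G) ∈ KJ X.U J

lemma eq_one_of_finite {B : Type} {F' : Subgroup (FreeGroup B)} {Z : Subgroup F'} (hZ : Finite Z)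
    {z : F'} (hz : z ∈ Z) : z = 1 := by
  have h1 : IsOfFinOrder (⟨z, hz⟩ : Z) := isOfFinOrder_of_finite _
  obtain ⟨n, hn, hn1⟩ := isOfFinOrder_iff_pow_eq_one.mp h1
  have h2 : ((z : FreeGroup B)) ^ n = 1 := by
    have := congrArg (fun t : Z => ((t : F') : FreeGroup B)) hn1
    simpa using this
  have h3 : (z : FreeGroup B) = 1 := by
    apply pow_left_injective hn.ne'
    simpa using h2
  exact Subtype.ext h3

lemma step1 (hR : S_R) (hS : S_RES) (X : Data G N) (J : Set X.B) (hJ : Closed X J)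
    (J1 : Set X.B) (hJ1 : J1.Finite) :
    ∃ S : Set G, S.Finite ∧ S ⊆ ((N ⊓ KJ X.U (J ∪ J1) : Subgroup G) : Set G) ∧
      N ⊓ KJ X.U (J ∪ J1) ≤ closure (S ∪ ((N ⊓ KJ X.U J : Subgroup G) : Set G)) := by
  classical
  set F' : Subgroup (FreeGroup X.B) := closure (FreeGroup.of '' (J ∪ J1)) with hF'
  set ι : F' →* G := N.subtype.comp (X.φ.symm.toMonoidHom.comp F'.subtype) with hι
  have hιinj : Function.Injective ι := by
    intro x y hxy
    have h1 : X.φ.symm (x : FreeGroup X.B) = X.φ.symm (y : FreeGroup X.B) := Subtype.ext hxy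
    exact Subtype.ext (X.φ.symm.injective h1)
  have hιN : ∀ x, ι x ∈ N := fun x => (X.φ.symm (x : FreeGroup X.B)).2
  set Z : Subgroup F' := (KJ X.U (J ∪ J1)).comap ι with hZ
  have hsep : HasSep F' Z := hS G F' ι _ hιinj (hasSep_KJ X.fin _)
  -- every element of `N ⊓ K` comes from `Z`
  have hcover : ∀ g ∈ N ⊓ KJ X.U (J ∪ J1), ∃ z ∈ Z, ι z = g := by
    intro g hg
    obtain ⟨hgN, hgK⟩ := mem_inf.mp hg
    have h1 := X.cl (J ∪ J1) ⟨g, hgN⟩ hgK
    have h2 : ι ⟨X.φ ⟨g, hgN⟩, h1⟩ = g := by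
      simp [hι]
    exact ⟨⟨X.φ ⟨g, hgN⟩, h1⟩, by rw [hZ, mem_comap, h2]; exact hgK, h2⟩
  rcases finite_or_infinite Z with hfin | hinf
  · refine ⟨∅, Set.finite_empty, Set.empty_subset _, ?_⟩
    intro g hg
    obtain ⟨z, hz, hzg⟩ := hcover g hg
    rw [← hzg, eq_one_of_finite hfin hz, map_one]
    exact one_mem _
  · have hJZ : ∀ b (hb : b ∈ J), (⟨FreeGroup.of b, subset_closure ⟨b, Or.inl hb, rfl⟩⟩ : F') ∈ Z := by
      intro b hb
      rw [hZ, mem_comap]
      exact KJ_mono X.U Set.subset_union_left (hJ b hb)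
    set S0 : Set F' := F'.subtype ⁻¹' (FreeGroup.of '' J1) with hS0
    have hS0f : S0.Finite := (hJ1.image _).preimage F'.subtype_injective.injOn
    have htop : closure (F'.subtype ⁻¹' (FreeGroup.of '' (J ∪ J1))) = ⊤ := by
      rw [eq_top_iff]
      intro x _
      have h1 : F' ≤ (closure (F'.subtype ⁻¹' (FreeGroup.of '' (J ∪ J1)))).map F'.subtype := by
        conv_lhs => rw [hF']
        rw [closure_le]
        intro y hy
        exact ⟨⟨y, subset_closure hy⟩, subset_closure hy, rfl⟩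
      obtain ⟨y, hy, hyx⟩ := mem_map.mp (h1 x.2)
      have : y = x := Subtype.ext hyx
      rwa [← this]
    have hgen : (⊤ : Subgroup F') ≤ closure (S0 ∪ ((⊤ ⊓ Z : Subgroup F') : Set F')) := by
      refine (le_of_eq htop.symm).trans ?_
      rw [closure_le]
      rintro x ⟨b, hb, hbx⟩
      rcases hb with hb | hb
      · apply Subgroup.subset_closure
        right
        refine mem_inf.mpr ⟨mem_top _, ?_⟩
        have : x = ⟨FreeGroup.of b, subset_closure ⟨b, Or.inl hb, rfl⟩⟩ := Subtype.ext hbx.symm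
        rw [this]
        exact hJZ b hb
      · apply Subgroup.subset_closure
        left
        exact ⟨b, hb, hbx⟩
    haveI : IsFreeGroup F' := inferInstance
    obtain ⟨Θ, hΘ, -⟩ := hR F' ⊤ Z inferInstance inferInstance inferInstance hinf (top_sup_eq _) hsep
      ⟨S0, hS0f, fun _ _ => mem_top _, hgen⟩ Z 1 (fun x => if h : x ∈ Z then ⟨x, h⟩ else 1) (by
        intro x hx y hy
        simp only [hx, hy, Z.mul_mem hx hy, dif_pos]
        rfl) (by
        intro C hC hCZ
        refine ⟨1, fun c hc => ?_⟩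
        have h1 : c = 1 := by
          exact eq_one_of_finite hC hc
        subst h1
        simp [one_mem]
        rfl)
    set Ψ : F' →* G := ι.comp (Z.subtype.comp Θ) with hΨ
    have hΨZ : ∀ z ∈ Z, Ψ z = ι z := by
      intro z hz
      have := hΘ z hz
      simp only [hz, dif_pos] at this
      simp [hΨ, this]
    refine ⟨Ψ '' S0, hS0f.image _, ?_, ?_⟩
    · rintro _ ⟨x, hx, rfl⟩
      exact mem_inf.mpr ⟨hιN _, (Θ x).2⟩
    · intro g hg
      obtain ⟨z, hz, hzg⟩ := hcover g hg
      rw [← hzg, ← hΨZ z hz]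
      have h1 : (⊤ : Subgroup F') ≤ (closure (Ψ '' S0 ∪ ((N ⊓ KJ X.U J : Subgroup G) : Set G))).comap
          Ψ := by
        rw [← htop, closure_le]
        rintro x ⟨b, hb, hbx⟩
        rcases hb with hb | hb
        · have h2 : x = ⟨FreeGroup.of b, subset_closure ⟨b, Or.inl hb, rfl⟩⟩ := Subtype.ext hbx.symm
          apply Subgroup.subset_closure
          right
          rw [h2, hΨZ _ (hJZ b hb)]
          exact mem_inf.mpr ⟨hιN _, hJ b hb⟩
        · apply Subgroup.subset_closure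
          left
          exact ⟨x, ⟨b, hb, hbx⟩, rfl⟩
      exact h1 (mem_top z)

end Pool.Agent.W366.LR
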